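import Pool.Agent.helper66.JS.Defs2

/-!
# Module C: words of the automaton give schedules
-/

set_option autoImplicit false

namespace Pool.Agent.helper66.JS

namespace ModC

/-- committed work on machine 1 -/
def cA : St → ℕ
  | .N1 => 26 | .Z1 => 25 | .X => 20 | .N2 => 50 | .Z2 => 49 | .F1 => 22 | .F2 => 0

/-- committed work on machine 2 -/
def cB : St → ℕ
  | .N1 => 48 | .Z1 => 49 | .X => 54 | .N2 => 24 | .Z2 => 25 | .F1 => 22 | .F2 => 0

lemma step_inv (S : St) (x : Let) (S' : St) (h : step S x = some S') :
    cA S + uu x = cA S' + pp x ∧ cB S + vv x = cB S' + pp x ∧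
    (f2 x = true → pp x ≤ cA S) ∧ (f3 x = true → pp x ≤ cB S) ∧
    (f2 x = true → 0 < vv x → cA S + uu x ≤ cB S) ∧
    (f3 x = true → 0 < uu x → cB S + vv x ≤ cA S) := by
  cases S <;> cases x <;> simp only [step, Option.some.injEq, reduceCtorEq] at h <;> subst h <;>
    simp [cA, cB, uu, vv, pp, f2, f3]

lemma cA_le (S : St) : cA S ≤ 50 := by cases S <;> simp [cA]
lemma cB_le (S : St) : cB S ≤ 54 := by cases S <;> simp [cB]
lemma pp_ge (x : Let) : 20 ≤ pp x := by cases x <;> simp [pp]

lemma run_append (S : St) (l1 l2 : List Let) :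
    run S (l1 ++ l2) = (run S l1).bind (fun S' => run S' l2) := by
  induction l1 generalizing S with
  | nil => simp [run]
  | cons x l ih =>
    simp only [List.cons_append, run]
    cases h : step S x with
    | none => simp
    | some S1 => simp [ih]

lemma run_inv (l : List Let) (S S' : St) (h : run S l = some S') :
    cA S + (l.map uu).sum = cA S' + (l.map pp).sum ∧
    cB S + (l.map vv).sum = cB S' + (l.map pp).sum := by
  induction l generalizing S with
  | nil =>
    simp only [run, Option.some.injEq] at h
    subst h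
    simp
  | cons x l ih =>
    simp only [run] at h
    cases h1 : step S x with
    | none => simp [h1] at h
    | some S1 =>
      simp only [h1, Option.bind_some] at h
      have h2 := ih S1 h
      have h3 := step_inv S x S1 h1
      simp only [List.map_cons, List.sum_cons]
      omega

section
variable {Λ : Type} [DecidableEq Λ]

/-- partial sums -/
def ps (f : Λ → ℕ) (l : List Λ) (i : ℕ) : ℕ := ((l.take i).map f).sum

omit [DecidableEq Λ] in
lemma ps_succ (f : Λ → ℕ) (l : List Λ) (i : ℕ) (hi : i < l.length) :
    ps f l (i + 1) = ps f l i + f l[i] := by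
  unfold ps
  rw [List.take_succ_eq_append_getElem hi, List.map_append, List.sum_append]
  simp only [List.map_cons, List.map_nil, List.sum_cons, List.sum_nil, add_zero]

omit [DecidableEq Λ] in
lemma ps_mono (f : Λ → ℕ) (l : List Λ) {i j : ℕ} (h : i ≤ j) : ps f l i ≤ ps f l j := by
  induction j, h using Nat.le_induction with
  | base => exact le_refl _
  | succ j hj ih =>
    refine ih.trans ?_
    by_cases hjl : j < l.length
    · rw [ps_succ f l j hjl]; omega
    · unfold ps
      rw [List.take_of_length_le (by omega), List.take_of_length_le (by omega)]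

omit [DecidableEq Λ] in
lemma ps_length (f : Λ → ℕ) (l : List Λ) : ps f l l.length = (l.map f).sum := by
  simp [ps]

omit [DecidableEq Λ] in
lemma ps_add (f : Λ → ℕ) (c : ℕ) (hf : ∀ x, c ≤ f x) (l : List Λ) (i k : ℕ)
    (h : i + k ≤ l.length) : ps f l i + c * k ≤ ps f l (i + k) := by
  induction k with
  | zero => simp
  | succ k ih =>
    have h1 := ih (by omega)
    rw [← add_assoc, ps_succ f l (i + k) (by omega)]
    have := hf l[i + k]
    rw [mul_add, mul_one]
    omega

omit [DecidableEq Λ] in
/-- the states along the run -/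
lemma states (kd : Λ → Let) (l : List Λ) (hr : run .N1 (l.map kd) = some .F2) (i : ℕ)
    (hi : i < l.length) : ∃ S S', step S (kd l[i]) = some S' ∧
      26 + ps (fun x => uu (kd x)) l i = cA S + ps (fun x => pp (kd x)) l i ∧
      48 + ps (fun x => vv (kd x)) l i = cB S + ps (fun x => pp (kd x)) l i := by
  have e : l.map kd = (l.take i).map kd ++ (kd l[i] :: (l.drop (i + 1)).map kd) := by
    conv_lhs => rw [← List.take_append_drop i l, List.drop_eq_getElem_cons hi]
    rw [List.map_append, List.map_cons]
  rw [e, run_append] at hr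
  cases h1 : run .N1 ((l.take i).map kd) with
  | none => rw [h1] at hr; simp at hr
  | some S =>
    rw [h1, Option.bind_some, run] at hr
    cases h2 : step S (kd l[i]) with
    | none => simp [h2] at hr
    | some S' =>
      refine ⟨S, S', h2, ?_⟩
      have h3 := run_inv _ _ _ h1
      simp only [List.map_map] at h3
      exact h3

end

end ModC

open ModC in
theorem gs_of_order {Λ : Type} [DecidableEq Λ] (kd : Λ → Let) (l : List Λ) (hn : l.Nodup)
    (hc : ∀ x, x ∈ l) (hr : run .N1 (l.map kd) = some .F2) :
    ∃ t1 t2 t3, GS kd (l.map (fun x => pp (kd x))).sum t1 t2 t3 0 0 ∧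
      ∀ x y, l.idxOf x + 4 ≤ l.idxOf y → t1 x + pp (kd x) ≤ t1 y ∧
        (0 < uu (kd x) → t2 x + uu (kd x) ≤ t1 y) ∧
        (0 < vv (kd x) → t3 x + vv (kd x) ≤ t1 y) := by
  set P : ℕ → ℕ := ps (fun x => pp (kd x)) l with hP
  set U : ℕ → ℕ := ps (fun x => uu (kd x)) l with hU
  set V : ℕ → ℕ := ps (fun x => vv (kd x)) l with hV
  have hlt : ∀ x, l.idxOf x < l.length := fun x => List.idxOf_lt_length_of_mem (hc x)
  have hget : ∀ x, l[l.idxOf x]'(hlt x) = x := fun x => List.getElem_idxOf (hlt x)
  have hPs : ∀ x, P (l.idxOf x + 1) = P (l.idxOf x) + pp (kd x) := by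
    intro x
    have := ps_succ (fun x => pp (kd x)) l _ (hlt x)
    rwa [hget] at this
  have hUs : ∀ x, U (l.idxOf x + 1) = U (l.idxOf x) + uu (kd x) := by
    intro x
    have := ps_succ (fun x => uu (kd x)) l _ (hlt x)
    rwa [hget] at this
  have hVs : ∀ x, V (l.idxOf x + 1) = V (l.idxOf x) + vv (kd x) := by
    intro x
    have := ps_succ (fun x => vv (kd x)) l _ (hlt x)
    rwa [hget] at this
  have hst : ∀ x, ∃ S S', step S (kd x) = some S' ∧
      26 + U (l.idxOf x) = cA S + P (l.idxOf x) ∧ 48 + V (l.idxOf x) = cB S + P (l.idxOf x) := by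
    intro x
    have := states kd l hr _ (hlt x)
    rwa [hget] at this
  have hPl : P l.length = (l.map (fun x => pp (kd x))).sum := ps_length _ _
  have hend := run_inv _ _ _ hr
  simp only [List.map_map] at hend
  have hUl : 26 + U l.length = P l.length := by
    rw [hU, hP, ps_length, ps_length]
    have := hend.1
    simp only [cA, zero_add] at this
    exact this
  have hVl : 48 + V l.length = P l.length := by
    rw [hV, hP, ps_length, ps_length]
    have := hend.2
    simp only [cB, zero_add] at this
    exact this
  have hne : ∀ x y, x ≠ y → l.idxOf x + 1 ≤ l.idxOf y ∨ l.idxOf y + 1 ≤ l.idxOf x := by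
    intro x y hxy
    have : l.idxOf x ≠ l.idxOf y := fun h => hxy (by rw [← hget x, ← hget y]; simp only [h])
    omega
  have mP : ∀ {i j}, i ≤ j → P i ≤ P j := fun h => ps_mono _ l h
  have mU : ∀ {i j}, i ≤ j → U i ≤ U j := fun h => ps_mono _ l h
  have mV : ∀ {i j}, i ≤ j → V i ≤ V j := fun h => ps_mono _ l h
  refine ⟨fun x => P (l.idxOf x), fun x => 26 + U (l.idxOf x), fun x => 48 + V (l.idxOf x),
    ?_, ?_⟩
  · rw [← hPl]
    constructor
    · intro x y hxy
      have h1 := hPs x
      have h2 := hPs y
      rcases hne x y hxy with h | h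
      · left; have := mP h; omega
      · right; have := mP h; omega
    · intro x y hxy _ _
      have h1 := hUs x
      have h2 := hUs y
      rcases hne x y hxy with h | h
      · left; have := mU h; omega
      · right; have := mU h; omega
    · intro x y hxy _ _
      have h1 := hVs x
      have h2 := hVs y
      rcases hne x y hxy with h | h
      · left; have := mV h; omega
      · right; have := mV h; omega
    · intro x _; right; omega
    · intro x _; right; omega
    · intro x
      have h1 := hPs x
      have := mP (show l.idxOf x + 1 ≤ l.length from hlt x)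
      omega
    · intro x _
      have h1 := hUs x
      have := mU (show l.idxOf x + 1 ≤ l.length from hlt x)
      omega
    · intro x _
      have h1 := hVs x
      have := mV (show l.idxOf x + 1 ≤ l.length from hlt x)
      omega
    · omega
    · omega
    · intro x hx
      obtain ⟨S, S', h1, h2, h3⟩ := hst x
      have h4 := (step_inv S _ S' h1).2.2.1 hx
      omega
    · intro x hx
      obtain ⟨S, S', h1, h2, h3⟩ := hst x
      have h4 := (step_inv S _ S' h1).2.2.2.1 hx
      omega
    · intro x hx hv
      obtain ⟨S, S', h1, h2, h3⟩ := hst x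
      have h4 := (step_inv S _ S' h1).2.2.2.2.1 hx hv
      omega
    · intro x hx hv
      obtain ⟨S, S', h1, h2, h3⟩ := hst x
      have h4 := (step_inv S _ S' h1).2.2.2.2.2 hx hv
      omega
  · intro x y hxy
    obtain ⟨S, S', h1, h2, h3⟩ := hst x
    obtain ⟨h4, h5, -⟩ := step_inv S _ S' h1
    have h6 := cA_le S'
    have h7 := cB_le S'
    have h8 : P (l.idxOf x + 1) + 20 * 3 ≤ P (l.idxOf x + 1 + 3) :=
      ps_add (fun x => pp (kd x)) 20 (fun x => pp_ge _) l _ 3 (by have := hlt y; omega)
    have h9 := mP (show l.idxOf x + 1 + 3 ≤ l.idxOf y by omega)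
    have h10 := hPs x
    refine ⟨?_, ?_, ?_⟩
    · show P (l.idxOf x) + pp (kd x) ≤ P (l.idxOf y)
      omega
    · intro _
      show 26 + U (l.idxOf x) + uu (kd x) ≤ P (l.idxOf y)
      omega
    · intro _
      show 48 + V (l.idxOf x) + vv (kd x) ≤ P (l.idxOf y)
      omega

end Pool.Agent.helper66.JS
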