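import Pool.Agent.helper66.JS.Defs2

/-!
# Module D2: times of the letters give schedules of the jobs
-/

set_option autoImplicit false

namespace Pool.Agent.helper66.JS

namespace ModD2

lemma opsOf_length_le (x : Let) : (opsOf x).length ≤ 3 := by cases x <;> simp [opsOf]

lemma opsOf_length (x : Let) (h : three x = true) : (opsOf x).length = 3 := by
  cases x <;> simp [opsOf, three] at h ⊢

/-- an operation of a letter -/
lemma op_cases (x : Let) (e m p : ℕ) (h : (opsOf x)[e]? = some (m, p)) :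
    (m = 0 ∧ p = pp x ∧ e = 0) ∨ (m = 1 ∧ p = uu x ∧ 0 < uu x ∧
      ((e = 1 ∧ f2 x = true) ∨ (e = 2 ∧ f3 x = true))) ∨
    (m = 2 ∧ p = vv x ∧ 0 < vv x ∧ ((e = 1 ∧ f3 x = true) ∨ (e = 2 ∧ f2 x = true))) := by
  have he : e < 3 := by
    have h1 := opsOf_length_le x
    have h2 := (List.getElem?_eq_some_iff.mp h).1
    omega
  interval_cases e <;> cases x <;>
    simp only [opsOf, List.getElem?_cons_zero, List.getElem?_cons_succ, List.getElem?_nil,
      Option.some.injEq, Prod.mk.injEq, reduceCtorEq] at h <;>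
    obtain ⟨rfl, rfl⟩ := h <;> simp [pp, uu, vv, f2, f3]

lemma jobOf_cons (x : Let) (w : List Let) : jobOf (x :: w) = opsOf x ++ jobOf w := by
  simp [jobOf]

lemma jobOf_get3 (w : List Let) (hw : ∀ x ∈ w, three x = true) (i m p : ℕ)
    (h : (jobOf w)[i]? = some (m, p)) :
    ∃ hk : i / 3 < w.length, (opsOf (w[i / 3]))[i % 3]? = some (m, p) := by
  induction w generalizing i with
  | nil => simp [jobOf] at h
  | cons x w ih =>
    rw [jobOf_cons] at h
    have h3 := opsOf_length x (hw x (by simp))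
    by_cases hi : i < 3
    · rw [List.getElem?_append_left (by omega)] at h
      have e1 : i / 3 = 0 := by omega
      have e2 : i % 3 = i := by omega
      refine ⟨by simp [e1], ?_⟩
      simp only [e1, List.getElem_cons_zero, e2]
      exact h
    · rw [List.getElem?_append_right (by omega), h3] at h
      obtain ⟨hk, h4⟩ := ih (fun y hy => hw y (by simp [hy])) (i - 3) h
      have e1 : i / 3 = (i - 3) / 3 + 1 := by omega
      have e2 : i % 3 = (i - 3) % 3 := by omega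
      refine ⟨by simp only [List.length_cons]; omega, ?_⟩
      simp only [e1, List.getElem_cons_succ, e2]
      exact h4

lemma jobOf_get (w : List Let) (hw : 2 ≤ w.length → ∀ x ∈ w, three x = true) (i m p : ℕ)
    (h : (jobOf w)[i]? = some (m, p)) :
    ∃ hk : i / 3 < w.length, (opsOf (w[i / 3]))[i % 3]? = some (m, p) := by
  by_cases h2 : 2 ≤ w.length
  · exact jobOf_get3 w (hw h2) i m p h
  · match w, h2 with
    | [], _ => simp [jobOf] at h
    | [x], _ =>
      have e : jobOf [x] = opsOf x := by simp [jobOf]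
      rw [e] at h
      have h1 := opsOf_length_le x
      have h2 := (List.getElem?_eq_some_iff.mp h).1
      have e1 : i / 3 = 0 := by omega
      have e2 : i % 3 = i := by omega
      refine ⟨by simp [e1], ?_⟩
      simp only [e1, List.getElem_cons_zero, e2]
      exact h
    | x :: y :: w, h2 => simp at h2

/-- time on machine `m` -/
def tm {Λ : Type} (t1 t2 t3 : Λ → ℕ) (m : ℕ) (o : Λ) : ℕ :=
  if m = 0 then t1 o else if m = 1 then t2 o else t3 o

/-- the schedule -/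
def st (ws : List (List Let)) (t1 t2 t3 : Occ ws → ℕ) (s2 s3 : ℕ) (j i : ℕ) : ℕ :=
  if j = 0 then s2 else if j = 1 then s3 else
  if h : j - 2 < ws.length then
    if h' : i / 3 < (ws.get ⟨j - 2, h⟩).length then
      tm t1 t2 t3 (((opsOf (kdOf ws ⟨⟨j - 2, h⟩, ⟨i / 3, h'⟩⟩))[i % 3]?.map Prod.fst).getD 0)
        ⟨⟨j - 2, h⟩, ⟨i / 3, h'⟩⟩
    else 0
  else 0

lemma st_eq (ws : List (List Let)) (t1 t2 t3 : Occ ws → ℕ) (s2 s3 : ℕ) (o : Occ ws) (i m p : ℕ)
    (hi : i / 3 = o.2) (h : (opsOf (kdOf ws o))[i % 3]? = some (m, p)) :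
    st ws t1 t2 t3 s2 s3 (o.1 + 2) i = tm t1 t2 t3 m o := by
  obtain ⟨⟨j, hj⟩, ⟨k, hk⟩⟩ := o
  simp only at hi
  subst hi
  unfold st
  simp only [Nat.add_sub_cancel, show j + 2 ≠ 0 by omega, show j + 2 ≠ 1 by omega, if_false]
  rw [dif_pos hj, dif_pos hk]
  show tm t1 t2 t3 (((opsOf (kdOf ws ⟨⟨j, hj⟩, ⟨i / 3, hk⟩⟩))[i % 3]?.map Prod.fst).getD 0)
    ⟨⟨j, hj⟩, ⟨i / 3, hk⟩⟩ = _
  rw [h]
  rfl

/-- operations of the jobs -/
lemma isOp_cases (ws : List (List Let))
    (hws : ∀ w ∈ ws, 2 ≤ w.length → ∀ x ∈ w, three x = true) (j i m p : ℕ)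
    (h : IsOp (instJobs ws) j i m p) :
    (j = 0 ∧ i = 0 ∧ m = 1 ∧ p = 26) ∨ (j = 1 ∧ i = 0 ∧ m = 2 ∧ p = 48) ∨
    ∃ o : Occ ws, j = o.1 + 2 ∧ i / 3 = o.2 ∧ (opsOf (kdOf ws o))[i % 3]? = some (m, p) := by
  obtain ⟨J, hJ, hi⟩ := h
  match j with
  | 0 =>
    left
    simp only [instJobs, List.getElem?_cons_zero, Option.some.injEq] at hJ
    subst hJ
    cases i with
    | zero =>
      simp only [List.getElem?_cons_zero, Option.some.injEq, Prod.mk.injEq] at hi
      exact ⟨rfl, rfl, hi.1.symm, hi.2.symm⟩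
    | succ i => simp at hi
  | 1 =>
    right; left
    simp only [instJobs, List.getElem?_cons_succ, List.getElem?_cons_zero,
      Option.some.injEq] at hJ
    subst hJ
    cases i with
    | zero =>
      simp only [List.getElem?_cons_zero, Option.some.injEq, Prod.mk.injEq] at hi
      exact ⟨rfl, rfl, hi.1.symm, hi.2.symm⟩
    | succ i => simp at hi
  | j + 2 =>
    right; right
    simp only [instJobs, List.getElem?_cons_succ, List.getElem?_map, Option.map_eq_some_iff] at hJ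
    obtain ⟨w, hw, rfl⟩ := hJ
    obtain ⟨hj, rfl⟩ := List.getElem?_eq_some_iff.mp hw
    obtain ⟨hk, h4⟩ := jobOf_get _ (hws _ (List.getElem_mem hj)) i m p hi
    exact ⟨⟨⟨j, hj⟩, ⟨i / 3, hk⟩⟩, rfl, rfl, h4⟩

end ModD2

open ModD2 in
theorem nsched_of_gs (ws : List (List Let))
    (hws : ∀ w ∈ ws, 2 ≤ w.length → ∀ x ∈ w, three x = true) (L : ℕ)
    (t1 t2 t3 : Occ ws → ℕ) (s2 s3 : ℕ) (h : GS (kdOf ws) L t1 t2 t3 s2 s3)
    (hn : ∀ (j : Fin ws.length) (k k' : Fin (ws.get j).length), (k' : ℕ) = k + 1 →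
      t1 ⟨j, k⟩ + pp (kdOf ws ⟨j, k⟩) ≤ t1 ⟨j, k'⟩ ∧
      (0 < uu (kdOf ws ⟨j, k⟩) → t2 ⟨j, k⟩ + uu (kdOf ws ⟨j, k⟩) ≤ t1 ⟨j, k'⟩) ∧
      (0 < vv (kdOf ws ⟨j, k⟩) → t3 ⟨j, k⟩ + vv (kdOf ws ⟨j, k⟩) ≤ t1 ⟨j, k'⟩)) :
    ∃ s, NSched (instJobs ws) L s := by
  refine ⟨st ws t1 t2 t3 s2 s3, ?_, ?_, ?_⟩
  · intro j i m p hop
    rcases isOp_cases ws hws j i m p hop with ⟨rfl, rfl, rfl, rfl⟩ | ⟨rfl, rfl, rfl, rfl⟩ |
      ⟨o, rfl, hi, ho⟩
    · exact h.bs2
    · exact h.bs3
    · rw [st_eq ws t1 t2 t3 s2 s3 o i m p hi ho]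
      rcases op_cases _ _ _ _ ho with ⟨rfl, rfl, _⟩ | ⟨rfl, rfl, hu, _⟩ | ⟨rfl, rfl, hv, _⟩
      · exact h.b1 o
      · exact h.b2 o hu
      · exact h.b3 o hv
  · intro j i m p m' p' hop hop'
    rcases isOp_cases ws hws j i m p hop with ⟨rfl, rfl, rfl, rfl⟩ | ⟨rfl, rfl, rfl, rfl⟩ |
      ⟨o, rfl, hi, ho⟩
    · rcases isOp_cases ws hws _ _ m' p' hop' with ⟨_, h0, _⟩ | ⟨h0, _⟩ | ⟨o', h0, _⟩
      · omega
      · omega
      · omega
    · rcases isOp_cases ws hws _ _ m' p' hop' with ⟨h0, _⟩ | ⟨_, h0, _⟩ | ⟨o', h0, _⟩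
      · omega
      · omega
      · omega
    · rcases isOp_cases ws hws _ _ m' p' hop' with ⟨h0, _⟩ | ⟨h0, _⟩ | ⟨o', hj, hi', ho'⟩
      · omega
      · omega
      · rw [st_eq ws t1 t2 t3 s2 s3 o i m p hi ho, hj,
          st_eq ws t1 t2 t3 s2 s3 o' (i + 1) m' p' hi' ho']
        obtain ⟨a, k⟩ := o
        obtain ⟨a', k'⟩ := o'
        have haa : a = a' := Fin.ext (by simpa using hj)
        subst haa
        by_cases hmod : i % 3 = 2
        · have hk : (k' : ℕ) = k + 1 := by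
            simp only at hi hi'
            omega
          have h0 : (i + 1) % 3 = 0 := by omega
          obtain ⟨n1, n2, n3⟩ := hn a k k' hk
          have hm' : m' = 0 := by
            rcases op_cases _ _ _ _ ho' with ⟨h1, _⟩ | ⟨_, _, _, h1⟩ | ⟨_, _, _, h1⟩
            · exact h1
            · omega
            · omega
          subst hm'
          rcases op_cases _ _ _ _ ho with ⟨rfl, rfl, _⟩ | ⟨rfl, rfl, hu, _⟩ | ⟨rfl, rfl, hv, _⟩
          · exact n1
          · exact n2 hu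
          · exact n3 hv
        · have hk : k' = k := Fin.ext (by simp only at hi hi'; omega)
          subst hk
          have h0 : (i + 1) % 3 = i % 3 + 1 := by omega
          rcases op_cases _ _ _ _ ho with ⟨rfl, rfl, e1⟩ | ⟨rfl, rfl, hu, e1⟩ |
            ⟨rfl, rfl, hv, e1⟩
          · rcases op_cases _ _ _ _ ho' with ⟨_, _, e2⟩ | ⟨rfl, rfl, hu, e2⟩ |
              ⟨rfl, rfl, hv, e2⟩
            · omega
            · rcases e2 with ⟨_, e2⟩ | ⟨e3, _⟩
              · exact h.p2 _ e2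
              · omega
            · rcases e2 with ⟨_, e2⟩ | ⟨e3, _⟩
              · exact h.p3 _ e2
              · omega
          · rcases e1 with ⟨e1, e1'⟩ | ⟨e1, _⟩
            · rcases op_cases _ _ _ _ ho' with ⟨_, _, e2⟩ | ⟨rfl, rfl, hu', e2⟩ |
                ⟨rfl, rfl, hv, e2⟩
              · omega
              · rcases e2 with ⟨e3, _⟩ | ⟨_, e3⟩
                · omega
                · exfalso
                  revert e1' e3
                  cases (kdOf ws ⟨a, k'⟩) <;> simp [f2, f3]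
              · exact h.q2 _ e1' hv
            · omega
          · rcases e1 with ⟨e1, e1'⟩ | ⟨e1, _⟩
            · rcases op_cases _ _ _ _ ho' with ⟨_, _, e2⟩ | ⟨rfl, rfl, hu', e2⟩ |
                ⟨rfl, rfl, hv', e2⟩
              · omega
              · exact h.q3 _ e1' hu'
              · rcases e2 with ⟨e3, _⟩ | ⟨_, e3⟩
                · omega
                · exfalso
                  revert e1' e3
                  cases (kdOf ws ⟨a, k'⟩) <;> simp [f2, f3]
            · omega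
  · intro j i j' i' m p p' hop hop' hne
    rcases isOp_cases ws hws j i m p hop with ⟨rfl, rfl, rfl, rfl⟩ | ⟨rfl, rfl, rfl, rfl⟩ |
      ⟨o, rfl, hi, ho⟩
    · rcases isOp_cases ws hws _ _ _ p' hop' with ⟨rfl, rfl, _⟩ | ⟨_, _, h0, _⟩ |
        ⟨o', rfl, hi', ho'⟩
      · exact absurd rfl hne
      · omega
      · rw [st_eq ws t1 t2 t3 s2 s3 o' i' 1 p' hi' ho']
        rcases op_cases _ _ _ _ ho' with ⟨h0, _⟩ | ⟨_, rfl, hu, _⟩ | ⟨h0, _⟩
        · omega
        · exact (h.g2 o' hu).symm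
        · omega
    · rcases isOp_cases ws hws _ _ _ p' hop' with ⟨_, _, h0, _⟩ | ⟨rfl, rfl, _⟩ |
        ⟨o', rfl, hi', ho'⟩
      · omega
      · exact absurd rfl hne
      · rw [st_eq ws t1 t2 t3 s2 s3 o' i' 2 p' hi' ho']
        rcases op_cases _ _ _ _ ho' with ⟨h0, _⟩ | ⟨h0, _⟩ | ⟨_, rfl, hv, _⟩
        · omega
        · omega
        · exact (h.g3 o' hv).symm
    · rw [st_eq ws t1 t2 t3 s2 s3 o i m p hi ho]
      rcases isOp_cases ws hws _ _ _ p' hop' with ⟨rfl, rfl, rfl, rfl⟩ |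
        ⟨rfl, rfl, rfl, rfl⟩ | ⟨o', rfl, hi', ho'⟩
      · rcases op_cases _ _ _ _ ho with ⟨h0, _⟩ | ⟨_, rfl, hu, _⟩ | ⟨h0, _⟩
        · omega
        · exact h.g2 o hu
        · omega
      · rcases op_cases _ _ _ _ ho with ⟨h0, _⟩ | ⟨h0, _⟩ | ⟨_, rfl, hv, _⟩
        · omega
        · omega
        · exact h.g3 o hv
      · rw [st_eq ws t1 t2 t3 s2 s3 o' i' m p' hi' ho']
        have hoo : o ≠ o' := by
          rintro rfl
          apply hne
          have : i % 3 = i' % 3 := by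
            rcases op_cases _ _ _ _ ho with ⟨a1, _, a2⟩ | ⟨a1, _, _, a2⟩ | ⟨a1, _, _, a2⟩ <;>
            rcases op_cases _ _ _ _ ho' with ⟨b1, _, b2⟩ | ⟨b1, _, _, b2⟩ | ⟨b1, _, _, b2⟩ <;>
            first
              | omega
              | (rcases a2 with ⟨a2, a3⟩ | ⟨a2, a3⟩ <;> rcases b2 with ⟨b2, b3⟩ | ⟨b2, b3⟩ <;>
                  first
                    | omega
                    | (exfalso; revert a3 b3; cases (kdOf ws o) <;> simp [f2, f3]))
          have e : i = i' := by omega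
          rw [e]
        rcases op_cases _ _ _ _ ho with ⟨rfl, rfl, _⟩ | ⟨rfl, rfl, hu, _⟩ | ⟨rfl, rfl, hv, _⟩
        · rcases op_cases _ _ _ _ ho' with ⟨_, rfl, _⟩ | ⟨h0, _⟩ | ⟨h0, _⟩
          · exact h.d1 o o' hoo
          · omega
          · omega
        · rcases op_cases _ _ _ _ ho' with ⟨h0, _⟩ | ⟨_, rfl, hu', _⟩ | ⟨h0, _⟩
          · omega
          · exact h.d2 o o' hoo hu hu'
          · omega
        · rcases op_cases _ _ _ _ ho' with ⟨h0, _⟩ | ⟨h0, _⟩ | ⟨_, rfl, hv', _⟩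
          · omega
          · omega
          · exact h.d3 o o' hoo hv hv'

end Pool.Agent.helper66.JS
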